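import Pool.Agent.Helper57.GriffCE.Mixed

/-!
Packet G-A4: the value of `N(d)² (N(z)² N(w)²)`.
-/

set_option autoImplicit false

namespace Pool.Agent.Helper57.GriffCE

open Pool.Agent.Helper20.Griff

section

variable {S : Type*} [CommRing S]

theorem der_nat_mul (d : Derivation ℤ S S) (n : ℕ) (f : S) : d ((n : S) * f) = (n : S) * d f := by
  rw [Derivation.leibniz, Derivation.map_natCast]
  simp

theorem cubOp_add (d : Fin 15 → Derivation ℤ S S) (f g : S) :
    cubOp (fun i f => d i f) (f + g) =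
      cubOp (fun i f => d i f) f + cubOp (fun i f => d i f) g := by
  simp only [cubOp, map_add]
  ring

theorem cubOp_nat_mul (d : Fin 15 → Derivation ℤ S S) (n : ℕ) (f : S) :
    cubOp (fun i f => d i f) ((n : S) * f) = (n : S) * cubOp (fun i f => d i f) f := by
  simp only [cubOp, der_nat_mul]
  ring

variable (d : Fin 15 → Derivation ℤ S S) (z w : Fin 15 → S)
  (hz : ∀ i j, d i (z j) = if i = j then 1 else 0)
  (hw : ∀ i j, d i (w j) = if i = j then 1 else 0)

include hz hw

theorem K1 : cubOp (fun i f => d i f) (cub z ^ 2 * cub w ^ 2) =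
    ((48 : ℕ) : S) * (cub z * cub w ^ 2) + ((48 : ℕ) : S) * (cub z ^ 2 * cub w)
      + ((16 : ℕ) : S) * (cub z * cub w * mix z w) := by
  rw [L1, V3sq d z hz, V3sq d w hw]
  have h1 : ∀ i, sharpOp (fun i f => d i f) (cub z ^ 2) i * d i (cub w ^ 2) =
      (16 * cub z * cub w) * (z i * sharp w i) := by
    intro i; rw [V2sq d z hz, V1sq d w hw]; ring
  have h2 : ∀ i, d i (cub z ^ 2) * sharpOp (fun i f => d i f) (cub w ^ 2) i =
      (16 * cub z * cub w) * (sharp z i * w i) := by
    intro i; rw [V2sq d w hw, V1sq d z hz]; ring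
  simp only [h1, h2, ← Finset.mul_sum]
  unfold mix
  push_cast
  ring

theorem K2 : cubOp (fun i f => d i f) (cub z ^ 2 * cub w) =
    48 * cub z * cub w + 8 * cub z * (∑ i, z i * sharp w i)
      + 6 * cub z * (∑ i, sharp z i * w i) + 15 * cub z ^ 2 := by
  rw [L1, V3sq d z hz, V3 d w hw]
  have h1 : ∀ i, sharpOp (fun i f => d i f) (cub z ^ 2) i * d i (cub w) =
      (8 * cub z) * (z i * sharp w i) := by
    intro i; rw [V2sq d z hz, V1 d w hw]; ring
  have h2 : ∀ i, d i (cub z ^ 2) * sharpOp (fun i f => d i f) (cub w) i =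
      (6 * cub z) * (sharp z i * w i) := by
    intro i; rw [V2 d w hw, V1sq d z hz]; ring
  simp only [h1, h2, ← Finset.mul_sum]
  ring

theorem K3 : cubOp (fun i f => d i f) (cub z * cub w ^ 2) =
    48 * cub z * cub w + 6 * cub w * (∑ i, z i * sharp w i)
      + 8 * cub w * (∑ i, sharp z i * w i) + 15 * cub w ^ 2 := by
  rw [L1, V3sq d w hw, V3 d z hz]
  have h1 : ∀ i, sharpOp (fun i f => d i f) (cub z) i * d i (cub w ^ 2) =
      (6 * cub w) * (z i * sharp w i) := by
    intro i; rw [V2 d z hz, V1sq d w hw]; ring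
  have h2 : ∀ i, d i (cub z) * sharpOp (fun i f => d i f) (cub w ^ 2) i =
      (8 * cub w) * (sharp z i * w i) := by
    intro i; rw [V2sq d w hw, V1 d z hz]; ring
  simp only [h1, h2, ← Finset.mul_sum]
  ring

theorem K4 : cubOp (fun i f => d i f) (cub z * cub w) =
    15 * cub z + 15 * cub w + 3 * mix z w := by
  rw [L1, V3 d w hw, V3 d z hz]
  have h1 : ∀ i, sharpOp (fun i f => d i f) (cub z) i * d i (cub w) =
      3 * (z i * sharp w i) := by
    intro i; rw [V2 d z hz, V1 d w hw]; ring
  have h2 : ∀ i, d i (cub z) * sharpOp (fun i f => d i f) (cub w) i =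
      3 * (sharp z i * w i) := by
    intro i; rw [V2 d w hw, V1 d z hz]; ring
  simp only [h1, h2, ← Finset.mul_sum]
  unfold mix
  ring

theorem K4s (i : Fin 15) : sharpOp (fun i f => d i f) (cub z * cub w) i =
    3 * cub w * z i + 3 * cub z * w i + crossV (sharp z) (sharp w) i := by
  have e1 : (fun i => d i (cub z)) = sharp z := funext fun i => V1 d z hz i
  have e2 : (fun i => d i (cub w)) = sharp w := funext fun i => V1 d w hw i
  rw [L2, V2 d z hz, V2 d w hw, e1, e2]
  ring

theorem K4d (i : Fin 15) : d i (cub z * cub w) = cub w * sharp z i + cub z * sharp w i := by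
  rw [Derivation.leibniz, V1 d z hz, V1 d w hw, smul_eq_mul, smul_eq_mul]
  ring

theorem K5 : cubOp (fun i f => d i f) (cub z * cub w * mix z w) =
    18 * (cub w * (∑ i, z i * sharp w i) + (∑ i, sharp z i * w i) * cub z)
      + 38 * (cub w * (∑ i, sharp z i * w i) + (∑ i, z i * sharp w i) * cub z)
      + 3 * ((∑ i, z i * sharp w i) ^ 2 + (∑ i, sharp z i * w i) ^ 2)
      + 8 * ((∑ i, z i * sharp w i) * (∑ i, sharp z i * w i)) + 168 * (cub w * cub z) := by
  rw [L1, K4 d z w hz hw, M3 d z w hz hw]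
  have h1 : ∀ i, sharpOp (fun i f => d i f) (cub z * cub w) i * d i (mix z w) =
      (3 * cub w) * (z i * sharp z i) + (3 * cub w) * (z i * sharp w i)
      + (6 * cub w) * (z i * crossV z w i)
      + (3 * cub z) * (sharp z i * w i) + (3 * cub z) * (w i * sharp w i)
      + (6 * cub z) * (w i * crossV z w i)
      + crossV (sharp z) (sharp w) i * sharp z i + crossV (sharp z) (sharp w) i * sharp w i
      + 2 * (crossV (sharp z) (sharp w) i * crossV z w i) := by
    intro i; rw [K4s d z w hz hw, M1 d z w hz hw]; ring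
  have h2 : ∀ i, d i (cub z * cub w) * sharpOp (fun i f => d i f) (mix z w) i =
      (9 * cub w) * (z i * sharp z i) + (9 * cub w) * (sharp z i * w i)
      + (9 * cub z) * (z i * sharp w i) + (9 * cub z) * (w i * sharp w i) := by
    intro i; rw [M2 d z w hz hw, K4d d z w hz hw]; ring
  simp only [h1, h2, Finset.sum_add_distrib, ← Finset.mul_sum, J1, J2, J2', J3, J3', J4]
  unfold mix
  ring

end

theorem stmtK : StmtK := by
  intro S _ d _ z w hz hw
  rw [K1 d z w hz hw, cubOp_add, cubOp_add, cubOp_nat_mul, cubOp_nat_mul, cubOp_nat_mul,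
    K2 d z w hz hw, K3 d z w hz hw, K5 d z w hz hw]
  push_cast
  ring

end Pool.Agent.Helper57.GriffCE
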