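import Pool.Agent.Helper57.GriffCE.Ops2

/-!
Derivatives of the mixed terms `⟨z, w^#⟩ + ⟨z^#, w⟩`.
-/

set_option autoImplicit false

namespace Pool.Agent.Helper57.GriffCE

open Pool.Agent.Helper20.Griff

variable {S : Type*} [CommRing S]

/-- The mixed term. -/
def mix (z w : Fin 15 → S) : S := ∑ i, z i * sharp w i + ∑ i, sharp z i * w i

theorem der_two (d : Derivation ℤ S S) : d (2 : S) = 0 := by
  have h := d.map_natCast 2
  simpa using h

theorem M1 (d : Fin 15 → Derivation ℤ S S) (z w : Fin 15 → S)
    (hz : ∀ i j, d i (z j) = if i = j then 1 else 0)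
    (hw : ∀ i j, d i (w j) = if i = j then 1 else 0) (i : Fin 15) :
    d i (mix z w) = sharp z i + sharp w i + 2 * crossV z w i := by
  have e : mix z w = cub (fun i => z i + w i) - cub z - cub w := by
    unfold mix
    rw [sum15, sum15]
    simp [sharp, cub]
    ring
  have hs : ∀ i, d i (cub (fun i => z i + w i)) = 2 * sharp (fun i => z i + w i) i := by
    intro i
    fin_cases i <;> simp [cub, sharp, Derivation.leibniz, hz, hw] <;> ring
  rw [e, map_sub, map_sub, V1 d z hz, V1 d w hw, hs]
  fin_cases i <;> simp [sharp, crossV] <;> ring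

theorem M2 (d : Fin 15 → Derivation ℤ S S) (z w : Fin 15 → S)
    (hz : ∀ i j, d i (z j) = if i = j then 1 else 0)
    (hw : ∀ i j, d i (w j) = if i = j then 1 else 0) (i : Fin 15) :
    sharpOp (fun i f => d i f) (mix z w) i = 9 * z i + 9 * w i := by
  have h := M1 d z w hz hw
  fin_cases i <;> simp only [sharpOp, h] <;>
    simp [sharp, crossV, Derivation.leibniz, hz, hw, der_two] <;> ring

theorem M3 (d : Fin 15 → Derivation ℤ S S) (z w : Fin 15 → S)
    (hz : ∀ i j, d i (z j) = if i = j then 1 else 0)
    (hw : ∀ i j, d i (w j) = if i = j then 1 else 0) :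
    cubOp (fun i f => d i f) (mix z w) = 90 := by
  have h := M1 d z w hz hw
  simp only [cubOp, h]
  simp [sharp, crossV, Derivation.leibniz, hz, hw, der_two]
  ring

end Pool.Agent.Helper57.GriffCE
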