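import Pool.Agent.Helper20.Griff.Goals

/-!
The third order operator `cubOp` and the second order operators `sharpOp` for derivations:
product rules (L1, L2), derivatives of the cubic form (V).
-/

set_option autoImplicit false

namespace Pool.Agent.Helper57.GriffCE

open Pool.Agent.Helper20.Griff

variable {S : Type*} [CommRing S]

/-- The sum over `Fin 15` written out. -/
theorem sum15 {M : Type*} [AddCommMonoid M] (f : Fin 15 → M) :
    ∑ i, f i = f 0 + f 1 + f 2 + f 3 + f 4 + f 5 + f 6 + f 7 + f 8 + f 9 + f 10 + f 11 + f 12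
      + f 13 + f 14 := by
  rw [Fin.sum_univ_castSucc, Fin.sum_univ_castSucc, Fin.sum_univ_castSucc, Fin.sum_univ_castSucc,
    Fin.sum_univ_castSucc, Fin.sum_univ_castSucc, Fin.sum_univ_castSucc, Fin.sum_univ_eight]
  rfl

/-- The polarization of `sharp`. -/
def crossV (u v : Fin 15 → S) : Fin 15 → S :=
  ![u 1 * v 2 + u 2 * v 1 - (u 3 * v 6 + u 6 * v 3 - (u 4 * v 5 + u 5 * v 4)),
    u 0 * v 2 + u 2 * v 0 - (u 7 * v 10 + u 10 * v 7 - (u 8 * v 9 + u 9 * v 8)),
    u 0 * v 1 + u 1 * v 0 - (u 11 * v 14 + u 14 * v 11 - (u 12 * v 13 + u 13 * v 12)),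
    - (u 0 * v 6 + u 6 * v 0) + (u 11 * v 7 + u 7 * v 11) + (u 13 * v 8 + u 8 * v 13),
    (u 0 * v 5 + u 5 * v 0) + (u 11 * v 9 + u 9 * v 11) + (u 13 * v 10 + u 10 * v 13),
    (u 0 * v 4 + u 4 * v 0) + (u 12 * v 7 + u 7 * v 12) + (u 14 * v 8 + u 8 * v 14),
    - (u 0 * v 3 + u 3 * v 0) + (u 12 * v 9 + u 9 * v 12) + (u 14 * v 10 + u 10 * v 14),
    - (u 1 * v 10 + u 10 * v 1) + (u 11 * v 3 + u 3 * v 11) + (u 12 * v 5 + u 5 * v 12),
    (u 1 * v 9 + u 9 * v 1) + (u 13 * v 3 + u 3 * v 13) + (u 14 * v 5 + u 5 * v 14),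
    (u 1 * v 8 + u 8 * v 1) + (u 11 * v 4 + u 4 * v 11) + (u 12 * v 6 + u 6 * v 12),
    - (u 1 * v 7 + u 7 * v 1) + (u 13 * v 4 + u 4 * v 13) + (u 14 * v 6 + u 6 * v 14),
    - (u 2 * v 14 + u 14 * v 2) + (u 3 * v 7 + u 7 * v 3) + (u 4 * v 9 + u 9 * v 4),
    (u 2 * v 13 + u 13 * v 2) + (u 5 * v 7 + u 7 * v 5) + (u 6 * v 9 + u 9 * v 6),
    (u 2 * v 12 + u 12 * v 2) + (u 3 * v 8 + u 8 * v 3) + (u 4 * v 10 + u 10 * v 4),
    - (u 2 * v 11 + u 11 * v 2) + (u 5 * v 8 + u 8 * v 5) + (u 6 * v 10 + u 10 * v 6)]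

/-- Third derivative of a product. -/
theorem leib3 (a b c : Derivation ℤ S S) (f g : S) :
    a (b (c (f * g))) = a (b (c f)) * g + b (c f) * a g + a (c f) * b g + a (b f) * c g
      + a f * b (c g) + b f * a (c g) + c f * a (b g) + f * a (b (c g)) := by
  simp only [Derivation.leibniz, smul_eq_mul, map_add]
  ring

/-- Second derivative of a product. -/
theorem leib2 (a b : Derivation ℤ S S) (f g : S) :
    a (b (f * g)) = a (b f) * g + a f * b g + b f * a g + f * a (b g) := by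
  simp only [Derivation.leibniz, smul_eq_mul, map_add]
  ring

/-- Product rule for the third order operator. -/
theorem L1 (d : Fin 15 → Derivation ℤ S S) (f g : S) :
    cubOp (fun i f => d i f) (f * g) =
      cubOp (fun i f => d i f) f * g + ∑ i, sharpOp (fun i f => d i f) f i * d i g
        + ∑ i, d i f * sharpOp (fun i f => d i f) g i + f * cubOp (fun i f => d i f) g := by
  rw [sum15, sum15]
  simp only [cubOp, leib3]
  simp [sharpOp]
  ring

/-- Product rule for the second order operators. -/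
theorem L2 (d : Fin 15 → Derivation ℤ S S) (f g : S) (i : Fin 15) :
    sharpOp (fun i f => d i f) (f * g) i =
      sharpOp (fun i f => d i f) f i * g + crossV (fun i => d i f) (fun i => d i g) i
        + f * sharpOp (fun i f => d i f) g i := by
  fin_cases i <;> simp [sharpOp, crossV, leib2] <;> ring

/-- The gradient of the cubic form. -/
theorem V1 (d : Fin 15 → Derivation ℤ S S) (z : Fin 15 → S)
    (hz : ∀ i j, d i (z j) = if i = j then 1 else 0) (i : Fin 15) :
    d i (cub z) = sharp z i := by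
  fin_cases i <;> simp [cub, sharp, Derivation.leibniz, hz] <;> ring

end Pool.Agent.Helper57.GriffCE
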