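import Pool.Agent.Helper57.GriffCE.Ops

/-!
Derivatives of the cubic form and of its square; the Freudenthal identities.
-/

set_option autoImplicit false

namespace Pool.Agent.Helper57.GriffCE

open Pool.Agent.Helper20.Griff

variable {S : Type*} [CommRing S]

/-- The second order operators on the cubic form. -/
theorem V2 (d : Fin 15 → Derivation ℤ S S) (z : Fin 15 → S)
    (hz : ∀ i j, d i (z j) = if i = j then 1 else 0) (i : Fin 15) :
    sharpOp (fun i f => d i f) (cub z) i = 3 * z i := by
  have h := V1 d z hz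
  fin_cases i <;> simp only [sharpOp, h] <;> simp [sharp, Derivation.leibniz, hz] <;> ring

/-- The third order operator on the cubic form. -/
theorem V3 (d : Fin 15 → Derivation ℤ S S) (z : Fin 15 → S)
    (hz : ∀ i j, d i (z j) = if i = j then 1 else 0) :
    cubOp (fun i f => d i f) (cub z) = 15 := by
  have h := V1 d z hz
  simp only [cubOp, h]
  simp [sharp, Derivation.leibniz, hz]
  ring

/-- `(z^#)^# = N(z) z` in polarized form. -/
theorem cross_sharp (z : Fin 15 → S) (i : Fin 15) :
    crossV (sharp z) (sharp z) i = 2 * cub z * z i := by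
  fin_cases i <;> simp [crossV, sharp, cub] <;> ring

theorem crossV_smul (c e : S) (u v : Fin 15 → S) (i : Fin 15) :
    crossV (fun i => c * u i) (fun i => e * v i) i = c * e * crossV u v i := by
  fin_cases i <;> simp [crossV] <;> ring

/-- Euler's relation. -/
theorem J1 (z : Fin 15 → S) : ∑ i, z i * sharp z i = 3 * cub z := by
  rw [sum15]
  simp [sharp, cub]
  ring

theorem J1' (z : Fin 15 → S) : ∑ i, sharp z i * z i = 3 * cub z := by
  rw [← J1]
  exact Finset.sum_congr rfl fun i _ => mul_comm _ _

/-- The square of the cubic form: second order. -/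
theorem V2sq (d : Fin 15 → Derivation ℤ S S) (z : Fin 15 → S)
    (hz : ∀ i j, d i (z j) = if i = j then 1 else 0) (i : Fin 15) :
    sharpOp (fun i f => d i f) (cub z ^ 2) i = 8 * cub z * z i := by
  have h1 : (fun i => d i (cub z)) = sharp z := funext fun i => V1 d z hz i
  rw [pow_two, L2, V2 d z hz, h1, cross_sharp]
  ring

theorem V1sq (d : Fin 15 → Derivation ℤ S S) (z : Fin 15 → S)
    (hz : ∀ i j, d i (z j) = if i = j then 1 else 0) (i : Fin 15) :
    d i (cub z ^ 2) = 2 * cub z * sharp z i := by
  rw [pow_two, Derivation.leibniz, V1 d z hz, smul_eq_mul]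
  ring

/-- The square of the cubic form: third order. -/
theorem V3sq (d : Fin 15 → Derivation ℤ S S) (z : Fin 15 → S)
    (hz : ∀ i j, d i (z j) = if i = j then 1 else 0) :
    cubOp (fun i f => d i f) (cub z ^ 2) = 48 * cub z := by
  rw [pow_two, L1, V3 d z hz]
  have h1 : ∀ i, sharpOp (fun i f => d i f) (cub z) i * d i (cub z) = 3 * (z i * sharp z i) := by
    intro i; rw [V1 d z hz, V2 d z hz]; ring
  have h2 : ∀ i, d i (cub z) * sharpOp (fun i f => d i f) (cub z) i = 3 * (z i * sharp z i) := by
    intro i; rw [V1 d z hz, V2 d z hz]; ring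
  simp only [h1, h2, ← Finset.mul_sum, J1]
  ring

/-- `⟨z^#, z × w⟩ = N(z)`-type identities. -/
theorem J2 (z w : Fin 15 → S) : ∑ i, z i * crossV z w i = 2 * ∑ i, sharp z i * w i := by
  rw [sum15, sum15]
  simp [sharp, crossV]
  ring

theorem J2' (z w : Fin 15 → S) : ∑ i, w i * crossV z w i = 2 * ∑ i, z i * sharp w i := by
  rw [sum15, sum15]
  simp [sharp, crossV]
  ring

theorem J3 (z w : Fin 15 → S) :
    ∑ i, crossV (sharp z) (sharp w) i * sharp z i = 2 * cub z * ∑ i, z i * sharp w i := by
  rw [sum15, sum15]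
  simp [sharp, crossV, cub]
  ring

theorem J3' (z w : Fin 15 → S) :
    ∑ i, crossV (sharp z) (sharp w) i * sharp w i = 2 * cub w * ∑ i, sharp z i * w i := by
  rw [sum15, sum15]
  simp [sharp, crossV, cub]
  ring

theorem J4 (z w : Fin 15 → S) :
    ∑ i, crossV (sharp z) (sharp w) i * crossV z w i =
      3 * cub z * cub w + (∑ i, z i * sharp w i) * ∑ i, sharp z i * w i := by
  rw [sum15, sum15, sum15]
  simp [sharp, crossV, cub]
  ring

end Pool.Agent.Helper57.GriffCE
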